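import Pool.Agent.Lib.H51K.Final

/-!
# Sets with progressions of all small differences: a growth exponent above that of Katz and Tao

`m(N, k) ≥ c k N ^ (1 / θ)` for all large `k` and all `N`, for every `θ` above the largest root
`1.67295...` of `13 θ³ - 30 θ² + 15 θ - 2`. The proof uses entropy of finite random variables: with
`h = H(x, t)` and `φ(s) = H(x + s t)`, an inequality `h ≤ α ∑ w_i φ(r_i)` with finitely many
rational slopes improves itself by means of three configurations of conditionally independent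
copies (`V`, `P3`, `C4` in `Pool.Agent.Lib.H51K.Defs`) and averages over translations and
dilations of the parameters.
-/

namespace Pool.Agent.Results.MP_87ec9a_co.BelowKatzTao

open Pool.Agent.Lib.H21AP

/-- For every `θ ≥ 1` with `13 θ³ - 30 θ² + 15 θ - 2 > 0` there are `k₀` and `c > 0` with
`m(N, k) ≥ c k N ^ (1 / θ)` for all `k ≥ k₀` and all `N ≥ 1`. -/
theorem result (θ : ℝ) (hθ : 1 ≤ θ) (h : 0 < 13 * θ ^ 3 - 30 * θ ^ 2 + 15 * θ - 2) :
    ∃ (k₀ : ℕ) (c : ℝ), 0 < c ∧ ∀ k N : ℕ, k₀ ≤ k → 1 ≤ N →
      c * k * (N : ℝ) ^ (1 / θ) ≤ minCard N k :=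
  H51K.final_main hθ h

end Pool.Agent.Results.MP_87ec9a_co.BelowKatzTao
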