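import Pool.Agent.Lib.H21AP.Table

/-!
# The number `m(N, k)` is the size of a multiplication table, up to a constant depending on `N`

The integers are cut into blocks of length `Q = lcm (1, …, N)`. In a block that is inside the
progressions with the differences in `D`, a set with the required progressions contains a union of
residue classes modulo the numbers `d ∈ D`; by a theorem of Rogers such a union is at least as large
as the set of the multiples of the numbers `d ∈ D`. Summing over the blocks, the number of elements
is at least the sum, over the residues `x` modulo `Q`, of the number of blocks that are inside the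
progression whose difference is the largest divisor of `x` not exceeding `N`.
-/

namespace Pool.Agent.Results.MP_87ec9a_co.MultiplicationTable

open Finset Pool.Agent.Lib.H21AP

/-- For all `N, k ≥ 1`, the number `m(N, k)` is between `M - 2 Q` and `M`, where `M` is the number of
distinct products `a b` with `1 ≤ a ≤ N`, `0 ≤ b < k`, and `Q = lcm (1, …, N)`; and it differs from
`c k` by at most `3 Q`, where `c` is the mean value of the largest divisor not exceeding `N`. -/
theorem result (N k : ℕ) (hN : 1 ≤ N) (hk : 1 ≤ k) :
    minCard N k ≤ table N k ∧ table N k ≤ minCard N k + 2 * lcmTo N ∧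
      |(minCard N k : ℝ) - meanDiv N * k| ≤ 3 * lcmTo N := by
  refine ⟨minCard_le_table N k, table_le_minCard hN k, ?_⟩
  have hQ : (0 : ℝ) < lcmTo N := by exact_mod_cast lcmTo_pos N
  have h1 := table_le_real N hk
  have h2 := minCard_ge_real hN hk
  have h3 : (minCard N k : ℝ) ≤ table N k := by exact_mod_cast minCard_le_table N k
  have h4 : 0 ≤ meanDiv N := by
    rw [meanDiv]
    positivity
  have h5 : meanDiv N ≤ lcmTo N := by
    rw [meanDiv, div_le_iff₀ hQ]
    have h6 : ∑ x ∈ range (lcmTo N), (largestDiv N x : ℝ) ≤
        ∑ _x ∈ range (lcmTo N), (lcmTo N : ℝ) := by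
      apply sum_le_sum
      intro x _
      have h7 := (largestDiv_spec hN x).2.1
      have h8 : N ≤ lcmTo N := Nat.le_of_dvd (lcmTo_pos N) (dvd_lcmTo hN le_rfl)
      exact_mod_cast h7.trans h8
    rwa [sum_const, card_range, nsmul_eq_mul] at h6
  rw [abs_le]
  constructor
  · linarith
  · linarith

end Pool.Agent.Results.MP_87ec9a_co.MultiplicationTable
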