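import Pool.Agent.Lib.H73K.Fin

/-!
# Sets with progressions of all small differences: explicit exponents for every length

Entropy inequalities for four and five slopes (exponents `29/16` for the slopes `0, 1, 2, 3` and
`17/10` for the slopes `0, 2, 3, 4, 6`) give lower bounds for `m(N, k)` for every `k ≥ 3`.
-/

namespace Pool.Agent.Results.MP_87ec9a_co.SmallLengths

open Finset Pool.Agent.Lib.H21AP Pool.Agent.Lib.H38K

/-- The exponent of `N`: it is `6/11` for `k = 3`, `16/29` for `k = 4`, `4/7` for `k = 5, 6` and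
`10/17` for `k ≥ 7`. -/
noncomputable def expo (k : ℕ) : ℝ :=
  if k < 4 then 6 / 11 else if k < 5 then 16 / 29 else if k < 7 then 4 / 7 else 10 / 17

theorem growthExp_five : (4 : ℝ) / 7 ≤ growthExp 5 := by
  have h := H51K.final_exp (θ := 7 / 4) (k₀ := 5) (by norm_num) (by norm_num) (by
    intro N hN
    obtain ⟨A, hA, hAc⟩ := exists_minCard N 5
    rw [← hAc]
    have h1 := five_of_distinct (Icc 1 N) A (fun d hd => by
      rw [mem_Icc] at hd
      exact hA d hd.1 hd.2)
    rw [Nat.card_Icc, Nat.add_sub_cancel] at h1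
    have h2 : ((A.card : ℝ) ^ ((7 : ℝ) / 4)) ^ 4 = (A.card : ℝ) ^ 7 := by
      rw [← Real.rpow_natCast, ← Real.rpow_mul (Nat.cast_nonneg _)]
      norm_num
    rw [← h2] at h1
    exact le_of_pow_le_pow_left₀ (by norm_num) (by positivity) h1)
  norm_num at h ⊢
  linarith

theorem rpow_le_of_growth {N k₀ k : ℕ} (hN : 1 ≤ N) (h₀ : 1 ≤ k₀) (h : k₀ ≤ k) {e : ℝ}
    (he : e ≤ growthExp k₀) : ((N : ℝ) + 1) ^ e ≤ minCard N k := by
  have h1 := rpow_growthExp_le hN h₀
  have h2 : ((N : ℝ) + 1) ^ e ≤ ((N : ℝ) + 1) ^ growthExp k₀ := by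
    apply Real.rpow_le_rpow_of_exponent_le _ he
    have : (0 : ℝ) ≤ N := Nat.cast_nonneg N
    linarith
  have h3 : (minCard N k₀ : ℝ) ≤ minCard N k := by exact_mod_cast minCard_mono h
  linarith

/-- Powers of `N - 1`, for all `N ≥ 1`. -/
theorem sub_one_rpow_le {N : ℕ} (hN : 1 ≤ N) {e g : ℝ} (he0 : 0 < e) (he : e ≤ g) :
    ((N : ℝ) - 1) ^ e ≤ ((N : ℝ) - 1) ^ g := by
  rcases Nat.lt_or_ge N 2 with h | h
  · have h1 : N = 1 := by omega
    subst h1
    rw [Nat.cast_one, sub_self, Real.zero_rpow he0.ne', Real.zero_rpow (by linarith)]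
  · apply Real.rpow_le_rpow_of_exponent_le _ he
    have : (2 : ℝ) ≤ N := by exact_mod_cast h
    linarith

/-- For all `N ≥ 1` and `k ≥ 3`, with `e = expo k`: `m(N, k) ≥ max (1, k / 14) (N - 1) ^ e`. -/
theorem result (N k : ℕ) (hN : 1 ≤ N) (hk : 3 ≤ k) :
    max 1 ((k : ℝ) / 14) * ((N : ℝ) - 1) ^ expo k ≤ minCard N k := by
  have hN1 : (0 : ℝ) ≤ (N : ℝ) - 1 := by
    have : (1 : ℝ) ≤ N := by exact_mod_cast hN
    linarith
  have key : ∀ k₀ : ℕ, 3 ≤ k₀ → k₀ ≤ 7 → k₀ ≤ k → 0 < expo k → expo k ≤ growthExp k₀ →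
      max 1 ((k : ℝ) / 14) * ((N : ℝ) - 1) ^ expo k ≤ minCard N k := by
    intro k₀ h3 h7 hkk he0 he
    rcases le_total ((k : ℝ) / 14) 1 with hm | hm
    · rw [max_eq_left hm, one_mul]
      refine le_trans ?_ (rpow_le_of_growth hN (by omega) hkk he)
      exact Real.rpow_le_rpow hN1 (by linarith) he0.le
    · rw [max_eq_right hm]
      refine le_trans ?_ (H51K.final_uniform (by omega) hkk hN)
      have hk0 : (3 : ℝ) ≤ k₀ := by exact_mod_cast h3
      have hk7 : (k₀ : ℝ) ≤ 7 := by exact_mod_cast h7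
      have h1 : (k : ℝ) / 14 ≤ (k : ℝ) / (2 * k₀) :=
        div_le_div_of_nonneg_left (Nat.cast_nonneg k) (by linarith) (by linarith)
      exact mul_le_mul h1 (sub_one_rpow_le hN he0 he) (Real.rpow_nonneg hN1 _)
        (div_nonneg (Nat.cast_nonneg k) (by linarith))
  rcases Nat.lt_or_ge k 4 with h4 | h4
  · have e : expo k = 6 / 11 := by rw [expo, if_pos h4]
    exact key 3 (by norm_num) (by norm_num) hk (by rw [e]; norm_num)
      (by rw [e]; exact H73K.fin_g3)
  rcases Nat.lt_or_ge k 5 with h5 | h5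
  · have e : expo k = 16 / 29 := by rw [expo, if_neg (by omega), if_pos h5]
    exact key 4 (by norm_num) (by norm_num) h4 (by rw [e]; norm_num)
      (by rw [e]; exact H73K.fin_g4)
  rcases Nat.lt_or_ge k 7 with h7 | h7
  · have e : expo k = 4 / 7 := by
      rw [expo, if_neg (by omega), if_neg (by omega), if_pos h7]
    exact key 5 (by norm_num) (by norm_num) h5 (by rw [e]; norm_num)
      (by rw [e]; exact growthExp_five)
  · have e : expo k = 10 / 17 := by
      rw [expo, if_neg (by omega), if_neg (by omega), if_neg (by omega)]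
    exact key 7 (by norm_num) (by norm_num) h7 (by rw [e]; norm_num)
      (by rw [e]; exact H73K.fin_g7)

end Pool.Agent.Results.MP_87ec9a_co.SmallLengths
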