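import Pool.Agent.Lib.H38K.Exponent

/-!
# Sets with progressions of all small differences: uniform growth in the length

A set with long progressions is split into its residue classes modulo a prime power `q`. In every class
the long progressions whose difference is prime to `q` leave shorter progressions. Expansions with odd
digits show that progressions for the odd differences alone already force the full growth exponent.
-/

namespace Pool.Agent.Results.MP_87ec9a_co.UniformGrowth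

open Finset Pool.Agent.Lib.H21AP Pool.Agent.Lib.H38K Filter Topology

theorem uniform {N k k₀ : ℕ} (h₀ : 1 ≤ k₀) (h : k₀ ≤ k) (hN : 1 ≤ N) :
    (k : ℝ) / (2 * k₀) * ((N : ℝ) - 1) ^ growthExp k₀ ≤ minCard N k := by
  obtain ⟨j, hj1, hj2⟩ := exists_pow h₀ h
  obtain ⟨A, hA, hAc⟩ := exists_minCard N k
  obtain ⟨F, hF, hF'⟩ := split (Nat.pow_pos (n := j) two_pos) hj1 hA
  have hN' : (1 : ℝ) ≤ N := by exact_mod_cast hN
  obtain ⟨b, hbN, hb, hb'⟩ : ∃ b, b ≤ N ∧ Odd b ∧ N ≤ b + 1 := by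
    rcases Nat.even_or_odd N with he | ho
    · obtain ⟨m, rfl⟩ := he
      exact ⟨m + m - 1, by omega, ⟨m - 1, by omega⟩, by omega⟩
    · exact ⟨N, le_rfl, ho, by omega⟩
  obtain ⟨X, hX⟩ : ∃ X, X = ((N : ℝ) - 1) ^ growthExp k₀ := ⟨_, rfl⟩
  have hX0 : 0 ≤ X := by
    rw [hX]
    exact Real.rpow_nonneg (by linarith) _
  have h1 : ∀ r ∈ range (2 ^ j), X ≤ ((F r).card : ℝ) := by
    intro r hr
    have h2 := rpow_le_card_of_odd hb h₀ (A := F r) (fun d hd1 hd2 hd3 =>
      hF' r (mem_range.1 hr) d hd1 (hd2.trans hbN) (Nat.Coprime.pow_right j hd3))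
    refine le_trans ?_ h2
    rw [hX]
    apply Real.rpow_le_rpow (by linarith) _ (growthExp_nonneg k₀)
    have : (N : ℝ) ≤ b + 1 := by exact_mod_cast hb'
    linarith
  have h2 := sum_le_sum h1
  rw [sum_const, card_range, nsmul_eq_mul, ← Nat.cast_sum, hF, hAc] at h2
  rw [← hX]
  refine le_trans (mul_le_mul_of_nonneg_right ?_ hX0) h2
  have h3 : (0 : ℝ) < 2 * k₀ := by
    have : (0 : ℝ) < k₀ := by exact_mod_cast h₀
    linarith
  rw [div_le_iff₀ h3, mul_comm]
  exact_mod_cast hj2.le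

/-- With the growth exponent `θ` of `m(N, k₀)` in `N`, one has
`m(N, k) ≥ (k / (2 k₀)) (N - 1) ^ θ` for all `k ≥ k₀` and all `N ≥ 1`. -/
theorem result (k₀ : ℕ) (h₀ : 1 ≤ k₀) :
    Tendsto (fun N : ℕ => Real.log (minCard N k₀) / Real.log ((N : ℝ) + 1)) atTop
      (𝓝 (growthExp k₀)) ∧
    ∀ N k : ℕ, 1 ≤ N → k₀ ≤ k →
      (k : ℝ) / (2 * k₀) * ((N : ℝ) - 1) ^ growthExp k₀ ≤ minCard N k :=
  ⟨tendsto_growthExp h₀, fun _ _ hN h => uniform h₀ h hN⟩

end Pool.Agent.Results.MP_87ec9a_co.UniformGrowth
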